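import Pool.Agent.Helper25.KV.Goals

/-!
Packet LOC of the project KV: local sup and Hölder bounds.
-/

namespace Pool.Agent.Helper65.KV

open Real MeasureTheory Set Filter Topology
open Pool.Agent.Helper25.KV

lemma cs_int {g : ℝ → ℝ} (hg : Continuous g) {a b : ℝ} (hab : a ≤ b) :
    (∫ x in a..b, g x) ^ 2 ≤ (b - a) * ∫ x in a..b, g x ^ 2 := by
  rcases hab.eq_or_lt with rfl | hlt
  · simp
  have hd : 0 < b - a := by linarith
  obtain ⟨s, hs⟩ : ∃ s, s = ∫ x in a..b, g x := ⟨_, rfl⟩
  have h0 : 0 ≤ ∫ x in a..b, (g x - s / (b - a)) ^ 2 :=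
    intervalIntegral.integral_nonneg hab fun x _ => sq_nonneg _
  have i1 : IntervalIntegrable (fun x => g x ^ 2) volume a b := (hg.pow 2).intervalIntegrable _ _
  have i2 : IntervalIntegrable (fun x => g x * (2 * (s / (b - a)))) volume a b :=
    (hg.mul continuous_const).intervalIntegrable _ _
  have i3 : IntervalIntegrable (fun _ : ℝ => (s / (b - a)) ^ 2) volume a b :=
    continuous_const.intervalIntegrable _ _
  have h1 : ∫ x in a..b, (g x - s / (b - a)) ^ 2 =
      (∫ x in a..b, g x ^ 2) - s * (2 * (s / (b - a))) + (b - a) * (s / (b - a)) ^ 2 := by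
    have e : (fun x => (g x - s / (b - a)) ^ 2) =
        fun x => (g x ^ 2 - g x * (2 * (s / (b - a)))) + (s / (b - a)) ^ 2 := by
      funext x
      ring
    rw [e, intervalIntegral.integral_add (i1.sub i2) i3, intervalIntegral.integral_sub i1 i2,
      intervalIntegral.integral_mul_const, ← hs, intervalIntegral.integral_const, smul_eq_mul]
  rw [h1] at h0
  rw [← hs]
  have h2 : s * (2 * (s / (b - a))) = 2 * (s ^ 2 / (b - a)) := by
    field_simp
  have h3 : (b - a) * (s / (b - a)) ^ 2 = s ^ 2 / (b - a) := by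
    field_simp
  rw [h2, h3] at h0
  have h4 : s ^ 2 / (b - a) ≤ ∫ x in a..b, g x ^ 2 := by linarith
  rw [div_le_iff₀ hd] at h4
  linarith

lemma int_le_of_le {h H : ℝ → ℝ} {a b C c : ℝ} (hab : a ≤ b) (hh : Continuous h)
    (hH : Integrable H) (hc : 0 ≤ c) (h0 : ∀ x, 0 ≤ H x) (hC : (∫ x, H x) ≤ C)
    (hle : ∀ x ∈ Icc a b, h x ≤ c * H x) : ∫ x in a..b, h x ≤ c * C := by
  rw [intervalIntegral.integral_of_le hab]
  calc ∫ x in Ioc a b, h x ≤ ∫ x in Ioc a b, c * H x := by
        refine setIntegral_mono_on ?_ (hH.const_mul c).integrableOn measurableSet_Ioc ?_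
        · exact (hh.continuousOn.integrableOn_compact isCompact_Icc).mono_set Ioc_subset_Icc_self
        · exact fun x hx => hle x (Ioc_subset_Icc_self hx)
    _ = c * ∫ x in Ioc a b, H x := integral_const_mul _ _
    _ ≤ c * ∫ x, H x := by
        refine mul_le_mul_of_nonneg_left ?_ hc
        exact setIntegral_le_integral hH (Filter.Eventually.of_forall h0)
    _ ≤ c * C := mul_le_mul_of_nonneg_left hC hc

theorem thm_LOC : H_LOC := by
  intro κ C R hκ0 hκ1 hR
  obtain ⟨K0, hK0⟩ : ∃ K0 : ℝ, K0 = (2 + R) ^ (1 - κ) := ⟨_, rfl⟩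
  have hK0pos : 0 < K0 := by
    rw [hK0]
    positivity
  refine ⟨sqrt (2 * |C| + 2 * (K0 * |C|)) + sqrt (K0 * |C|) + 1, by positivity, ?_⟩
  intro f hf hF hFC hG hGC x y hx hy
  have hcont : Continuous f := hf.continuous
  have hdc : Continuous (deriv f) := hf.continuous_deriv le_rfl
  have hC1 : C ≤ |C| := le_abs_self C
  have hK : K0 * (2 + R) ^ (κ - 1) = 1 := by
    rw [hK0, ← Real.rpow_add (by linarith)]
    norm_num
  have hpt : ∀ z : ℝ, |z| ≤ R + 1 → 1 ≤ K0 * (1 + |z|) ^ (κ - 1) := by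
    intro z hz
    refine hK.symm.le.trans (mul_le_mul_of_nonneg_left ?_ hK0pos.le)
    have h1 : 0 < 1 + |z| := by positivity
    have h2 : 1 + |z| ≤ 2 + R := by linarith
    have h3 : κ - 1 ≤ 0 := by linarith
    exact Real.rpow_le_rpow_of_nonpos h1 h2 h3
  have hinc : ∀ a b : ℝ, a ≤ b → |a| ≤ R + 1 → |b| ≤ R + 1 →
      (f b - f a) ^ 2 ≤ (K0 * |C|) * (b - a) := by
    intro a b hab ha hb
    have e1 : ∫ z in a..b, deriv f z = f b - f a :=
      intervalIntegral.integral_deriv_eq_sub
        (fun z _ => (hf.differentiable one_ne_zero) z) (hdc.intervalIntegrable _ _)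
    have e2 := cs_int hdc hab
    rw [e1] at e2
    have e3 : ∫ z in a..b, deriv f z ^ 2 ≤ K0 * |C| := by
      refine int_le_of_le hab (hdc.pow 2) hG hK0pos.le (fun z => by positivity)
        (hGC.trans hC1) ?_
      intro z hz
      have hz' : |z| ≤ R + 1 := by
        rw [abs_le] at ha hb ⊢
        exact ⟨by linarith [hz.1], by linarith [hz.2]⟩
      have e4 := hpt z hz'
      nlinarith [mul_le_mul_of_nonneg_left e4 (sq_nonneg (deriv f z))]
    calc (f b - f a) ^ 2 ≤ (b - a) * ∫ z in a..b, deriv f z ^ 2 := e2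
      _ ≤ (b - a) * (K0 * |C|) := mul_le_mul_of_nonneg_left e3 (by linarith)
      _ = (K0 * |C|) * (b - a) := by ring
  have hinc' : ∀ a b : ℝ, |a| ≤ R + 1 → |b| ≤ R + 1 →
      (f a - f b) ^ 2 ≤ (K0 * |C|) * |a - b| := by
    intro a b ha hb
    rcases le_total a b with hab | hab
    · have h1 := hinc a b hab ha hb
      rw [abs_of_nonpos (by linarith : a - b ≤ 0)]
      nlinarith
    · have h1 := hinc b a hab hb ha
      rw [abs_of_nonneg (by linarith : 0 ≤ a - b)]
      exact h1
  have hKC : 0 ≤ K0 * |C| := by positivity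
  constructor
  · have h1 : f x ^ 2 ≤ 2 * |C| + 2 * (K0 * |C|) := by
      have h2 : ∫ z in x..(x + 1), (f x ^ 2 - 2 * (K0 * |C|)) ≤ 2 * |C| := by
        refine int_le_of_le (by linarith) continuous_const hF (by norm_num)
          (fun z => by positivity) (hFC.trans hC1) ?_
        intro z hz
        have hx1 := abs_le.1 hx
        have hz' : |z| ≤ R + 1 := by
          rw [abs_le]
          exact ⟨by linarith [hz.1], by linarith [hz.2]⟩
        have h3 := hinc' x z (by linarith) hz'
        have h4 : |x - z| ≤ 1 := by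
          rw [abs_le]
          exact ⟨by linarith [hz.2], by linarith [hz.1]⟩
        have h5 : (f x - f z) ^ 2 ≤ K0 * |C| := h3.trans (by nlinarith)
        have h6 : 1 ≤ (1 + |z|) ^ κ := Real.one_le_rpow (by linarith [abs_nonneg z]) hκ0.le
        have h7 : f z ^ 2 ≤ f z ^ 2 * (1 + |z|) ^ κ := by
          nlinarith [mul_le_mul_of_nonneg_left h6 (sq_nonneg (f z))]
        nlinarith [sq_nonneg (f x - 2 * f z)]
      rw [intervalIntegral.integral_const, smul_eq_mul] at h2
      linarith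
    have h8 : |f x| ≤ sqrt (2 * |C| + 2 * (K0 * |C|)) := Real.abs_le_sqrt h1
    have h9 := Real.sqrt_nonneg (K0 * |C|)
    linarith
  · have h1 := hinc' x y (by linarith) (by linarith)
    have h2 : |f x - f y| ≤ sqrt (K0 * |C| * |x - y|) := Real.abs_le_sqrt h1
    rw [Real.sqrt_mul hKC, Real.sqrt_eq_rpow |x - y|] at h2
    refine h2.trans ?_
    refine mul_le_mul_of_nonneg_right ?_ (by positivity)
    have h9 := Real.sqrt_nonneg (2 * |C| + 2 * (K0 * |C|))
    linarith

end Pool.Agent.Helper65.KV
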