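import Pool.Agent.Helper9.KV.F_H1B
import Pool.Agent.Helper16.KV.F_CONTQ
import Pool.Agent.Helper26.KV.HInfAlg
import Pool.Agent.Helper48.KV.GoalsG1

/-!
# Project KV (`MP_66be51_an`): packet MASSL, smallness of the remainder from mass conservation
-/

namespace Pool.Agent.Helper65.KV

open Real MeasureTheory Set Filter Topology
open Pool.Agent.Helper33.KV Pool.Agent.Helper41.KV Pool.Agent.Helper48.KV
open Pool.Agent.Helper26.KV (HInf_wflux hinf_mono)

/-! ## Mass conservation -/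

theorem binf_const (c : ℝ) (t1 t2 : ℝ) : BInf (fun _ _ => c) (fun _ _ => 0) t1 t2 where
  smooth := fun _ _ => contDiff_const
  cont := fun k => by
    have h : (fun z : ℝ × ℝ => iteratedDeriv k (fun _ : ℝ => c) z.2) =
        fun _ => if k = 0 then c else 0 := by
      funext z
      simp [iteratedDeriv_const]
    rw [h]
    exact continuousOn_const
  bound := fun k => ⟨|c|, fun t _ x => by
    by_cases h : k = 0 <;> simp [iteratedDeriv_const, h]⟩
  dt := fun t _ x => hasDerivWithinAt_const _ _ _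
  contt := continuousOn_const
  boundt := ⟨0, fun t _ x => by simp⟩

theorem hinf_zero (t1 t2 : ℝ) : HInf (fun _ _ => 0) t1 t2 where
  smooth := fun _ _ => contDiff_const
  cont := fun k => by
    have h : (fun z : ℝ × ℝ => iteratedDeriv k (fun _ : ℝ => (0 : ℝ)) z.2) = fun _ => 0 := by
      funext z
      simp
    rw [h]
    exact continuousOn_const
  memLp := fun k t _ => by
    have h : iteratedDeriv k (fun _ : ℝ => (0 : ℝ)) = fun _ => 0 := by
      funext z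
      simp
    rw [h]
    exact MemLp.zero
  bound := fun k => ⟨0, fun t _ => by simp⟩

theorem contDiff_infty_iff_iter {f : ℝ → ℝ} (hf : ContDiff ℝ (⊤ : ℕ∞) f) (k : ℕ) :
    Differentiable ℝ (iteratedDeriv k f) :=
  hf.differentiable_iteratedDeriv k (by exact_mod_cast (WithTop.coe_lt_top k))

theorem srcS_zero {u : ℝ → ℝ → ℝ} {t : ℝ} (hu : ContDiff ℝ (⊤ : ℕ∞) (u t)) :
    srcS (fun _ _ => 0) u (fun t x => - deriv (flux (u t)) x) t = fun _ => 0 := by
  funext x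
  have h2 : Differentiable ℝ (iteratedDeriv 2 (u t)) :=
    (contDiff_infty_iff_iter hu 2)
  have h0 : Differentiable ℝ (u t) := hu.differentiable (by simp)
  have e1 : deriv (flux (u t)) x = iteratedDeriv 3 (u t) x + deriv (fun y => u t y ^ 5) x := by
    have : flux (u t) = fun y => iteratedDeriv 2 (u t) y + u t y ^ 5 := rfl
    rw [this, deriv_fun_add (h2 x) ((h0 x).fun_pow 5)]
    congr 1
    exact (congrFun (iteratedDeriv_succ (n := 2) (f := u t)) x).symm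
  have e2 : (fun y => nG 0 (u t y)) = fun y => u t y ^ 5 := by
    funext y
    simp [nG]
  change - deriv (flux (u t)) x + iteratedDeriv 3 (u t) x + deriv (fun y => nG 0 (u t y)) x = 0
  rw [e1, e2]
  ring

theorem mass_const (hT : S_TIME) {u : ℝ → ℝ → ℝ} {t1 t2 : ℝ} (h12 : t1 ≤ t2)
    (hu : SmoothSol u t1 t2) : ∫ x, u t2 x ^ 2 = ∫ x, u t1 x ^ 2 := by
  obtain ⟨-, -, -, h⟩ := hT t1 t2 (fun _ _ => 1) (fun _ _ => 0) (fun _ _ => 0) (fun _ _ => 0)
    (fun _ _ => 0) (fun _ _ => 0) u (fun t x => - deriv (flux (u t)) x) h12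
    (binf_const 1 t1 t2) (binf_const 0 t1 t2) (hinf_zero t1 t2) (hinf_zero t1 t2)
    (fun k t _ x => by
      have h0 : iteratedDeriv k (fun _ : ℝ => (0 : ℝ)) x = 0 := by simp
      change HasDerivWithinAt (fun _ : ℝ => iteratedDeriv k (fun _ : ℝ => (0 : ℝ)) x)
        (iteratedDeriv k (fun _ : ℝ => (0 : ℝ)) x) (Icc t1 t2) t
      rw [h0]
      exact hasDerivWithinAt_const t (Icc t1 t2) (0 : ℝ))
    hu.hinf (HInf_wflux hu.hinf) hu.eqn
  have hz : ∀ t ∈ Icc t1 t2, ∀ x, tInt (fun _ _ => 1) (fun _ _ => 0) (fun _ _ => 0)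
      (fun _ _ => 0) (fun _ _ => 0) (fun _ _ => 0) u (fun t x => - deriv (flux (u t)) x) t x = 0 := by
    intro t ht x
    unfold tInt
    rw [srcS_zero (hu.hinf.smooth t ht)]
    simp [rhsD, iteratedDeriv_const]
  have hi : ∫ t in t1..t2, ∫ x, tInt (fun _ _ => 1) (fun _ _ => 0) (fun _ _ => 0)
      (fun _ _ => 0) (fun _ _ => 0) (fun _ _ => 0) u (fun t x => - deriv (flux (u t)) x) t x = 0 := by
    rw [intervalIntegral.integral_congr (g := fun _ => (0 : ℝ))]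
    · simp
    · intro t ht
      rw [uIcc_of_le h12] at ht
      simp only
      rw [integral_congr_ae (g := fun _ => (0 : ℝ)) (Eventually.of_forall fun x => hz t ht x)]
      simp
  rw [hi] at h
  unfold fun2 at h
  simp only [dens, one_mul, zero_mul, add_zero] at h
  linarith

theorem mass_eq (hT : S_TIME) {u : ℝ → ℝ → ℝ} {t1 t2 t : ℝ} (ht : t ∈ Icc t1 t2)
    (hu : SmoothSol u t1 t2) : ∫ x, u t x ^ 2 = ∫ x, u t1 x ^ 2 := by
  refine mass_const hT ht.1 ⟨hinf_mono hu.hinf le_rfl ht.2, fun k s hs x => ?_⟩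
  have hsub : Icc t1 t ⊆ Icc t1 t2 := Icc_subset_Icc le_rfl ht.2
  exact (hu.eqn k s (hsub hs) x).mono hsub

/-! ## The weight -/

theorem wt_pos {K ρ : ℝ} (hρ : 0 < ρ) (y : ℝ) : 0 < wt K ρ y := by
  unfold wt
  have := Real.exp_pos (-(y / K))
  positivity

theorem wt_le {K ρ : ℝ} (hρ : 0 < ρ) (y : ℝ) : wt K ρ y ≤ 1 := by
  unfold wt
  have := Real.exp_pos (-(y / K))
  rw [div_le_one (by positivity)]
  nlinarith [mul_pos hρ this]

theorem wt_cont {K ρ : ℝ} (hρ : 0 < ρ) : Continuous (wt K ρ) := by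
  unfold wt
  refine continuous_const.div (by fun_prop) fun y => ?_
  have := Real.exp_pos (-(y / K))
  positivity

/-! ## The static estimate -/

theorem pw (v z e φ ρ : ℝ) (hρ : 0 < ρ) (h0 : 0 ≤ φ) (h1 : φ ≤ 1) :
    e ^ 2 / 2 ≤ (v + z + e) ^ 2 - v ^ 2 - 2 * (v * z) + 2 * ρ * v ^ 2 + (2 * ρ + 4) * z ^ 2
      + (1 / ρ) * (φ * e ^ 2) + 4 * ((1 - φ) ^ 2 * v ^ 2) := by
  have hV : (v + z) ^ 2 ≤ 2 * v ^ 2 + 2 * z ^ 2 := by nlinarith [sq_nonneg (v - z)]
  have ha : -(2 * (φ * ((v + z) * e))) ≤ ρ * (v + z) ^ 2 + (1 / ρ) * (φ * e ^ 2) := by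
    have h3 : 0 ≤ φ * (ρ * (v + z) ^ 2 + 2 * ((v + z) * e) + (1 / ρ) * e ^ 2) := by
      refine mul_nonneg h0 ?_
      have : ρ * (v + z) ^ 2 + 2 * ((v + z) * e) + (1 / ρ) * e ^ 2 =
          (1 / ρ) * (ρ * (v + z) + e) ^ 2 := by
        field_simp
        ring
      rw [this]
      positivity
    have h4 : φ * (ρ * (v + z) ^ 2) ≤ ρ * (v + z) ^ 2 := by
      have : 0 ≤ ρ * (v + z) ^ 2 := by positivity
      nlinarith
    nlinarith
  have hb : -(2 * ((1 - φ) * ((v + z) * e))) ≤ 2 * ((1 - φ) ^ 2 * (v + z) ^ 2) + e ^ 2 / 2 := by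
    nlinarith [sq_nonneg (2 * ((1 - φ) * (v + z)) + e)]
  have hc : (1 - φ) ^ 2 * (v + z) ^ 2 ≤ 2 * ((1 - φ) ^ 2 * v ^ 2) + 2 * z ^ 2 := by
    have h5 : (1 - φ) ^ 2 ≤ 1 := by nlinarith
    have h6 : 0 ≤ (1 - φ) ^ 2 := sq_nonneg _
    have h7 : (1 - φ) ^ 2 * (v + z) ^ 2 ≤ (1 - φ) ^ 2 * (2 * v ^ 2 + 2 * z ^ 2) :=
      mul_le_mul_of_nonneg_left hV h6
    have h8 : (1 - φ) ^ 2 * z ^ 2 ≤ z ^ 2 := by
      have := sq_nonneg z
      nlinarith
    nlinarith
  have hd : ρ * (v + z) ^ 2 ≤ ρ * (2 * v ^ 2 + 2 * z ^ 2) := mul_le_mul_of_nonneg_left hV hρ.le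
  nlinarith [sq_nonneg z]

theorem static {v z e φ : ℝ → ℝ} {ρ : ℝ} (hρ : 0 < ρ) (hv : MemLp v 2) (hz : MemLp z 2)
    (he : MemLp e 2) (hφ : Continuous φ) (h0 : ∀ y, 0 ≤ φ y) (h1 : ∀ y, φ y ≤ 1) :
    (∫ y, e y ^ 2) ≤ 2 * ((∫ y, (v y + z y + e y) ^ 2) - ∫ y, v y ^ 2)
      - 4 * (∫ y, v y * z y) + 4 * ρ * (∫ y, v y ^ 2) + (4 * ρ + 8) * (∫ y, z y ^ 2)
      + (2 / ρ) * (∫ y, φ y * e y ^ 2) + 8 * ∫ y, (1 - φ y) ^ 2 * v y ^ 2 := by
  have iv := hv.integrable_sq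
  have iz := hz.integrable_sq
  have ie := he.integrable_sq
  have ivz : Integrable (fun y => v y * z y) := hv.integrable_mul hz
  have iU : Integrable (fun y => (v y + z y + e y) ^ 2) := ((hv.add hz).add he).integrable_sq
  have iφ : Integrable (fun y => φ y * e y ^ 2) := by
    refine ie.mono (hφ.aestronglyMeasurable.mul ie.aestronglyMeasurable)
      (Eventually.of_forall fun y => ?_)
    rw [Real.norm_eq_abs, Real.norm_eq_abs, abs_mul, abs_of_nonneg (h0 y)]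
    exact mul_le_of_le_one_left (abs_nonneg _) (h1 y)
  have iv1 : Integrable (fun y => (1 - φ y) ^ 2 * v y ^ 2) := by
    refine iv.mono (((continuous_const.sub hφ).pow 2).aestronglyMeasurable.mul
      iv.aestronglyMeasurable) (Eventually.of_forall fun y => ?_)
    rw [Real.norm_eq_abs, Real.norm_eq_abs, abs_mul, abs_of_nonneg (sq_nonneg (1 - φ y))]
    refine mul_le_of_le_one_left (abs_nonneg _) ?_
    nlinarith [h0 y, h1 y]
  have key : (∫ y, e y ^ 2 / 2) ≤ ∫ y, ((v y + z y + e y) ^ 2 - v y ^ 2 - 2 * (v y * z y)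
      + 2 * ρ * v y ^ 2 + (2 * ρ + 4) * z y ^ 2 + (1 / ρ) * (φ y * e y ^ 2)
      + 4 * ((1 - φ y) ^ 2 * v y ^ 2)) := by
    refine integral_mono (ie.div_const 2) ?_ fun y => pw (v y) (z y) (e y) (φ y) ρ hρ (h0 y) (h1 y)
    exact ((((((iU.sub iv).sub (ivz.const_mul 2)).add (iv.const_mul (2 * ρ))).add
      (iz.const_mul (2 * ρ + 4))).add (iφ.const_mul (1 / ρ))).add (iv1.const_mul 4))
  rw [integral_div] at key
  have i1 : Integrable (fun y => (v y + z y + e y) ^ 2 - v y ^ 2) := iU.sub iv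
  have i2 : Integrable (fun y => (v y + z y + e y) ^ 2 - v y ^ 2 - 2 * (v y * z y)) :=
    i1.sub (ivz.const_mul 2)
  have i3 : Integrable (fun y => (v y + z y + e y) ^ 2 - v y ^ 2 - 2 * (v y * z y)
      + 2 * ρ * v y ^ 2) := i2.add (iv.const_mul (2 * ρ))
  have i4 : Integrable (fun y => (v y + z y + e y) ^ 2 - v y ^ 2 - 2 * (v y * z y)
      + 2 * ρ * v y ^ 2 + (2 * ρ + 4) * z y ^ 2) := i3.add (iz.const_mul (2 * ρ + 4))
  have i5 : Integrable (fun y => (v y + z y + e y) ^ 2 - v y ^ 2 - 2 * (v y * z y)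
      + 2 * ρ * v y ^ 2 + (2 * ρ + 4) * z y ^ 2 + (1 / ρ) * (φ y * e y ^ 2)) :=
    i4.add (iφ.const_mul (1 / ρ))
  have e1 : (∫ y, ((v y + z y + e y) ^ 2 - v y ^ 2 - 2 * (v y * z y)
      + 2 * ρ * v y ^ 2 + (2 * ρ + 4) * z y ^ 2 + (1 / ρ) * (φ y * e y ^ 2)
      + 4 * ((1 - φ y) ^ 2 * v y ^ 2))) = (∫ y, (v y + z y + e y) ^ 2) - (∫ y, v y ^ 2)
      - 2 * (∫ y, v y * z y) + 2 * ρ * (∫ y, v y ^ 2) + (2 * ρ + 4) * (∫ y, z y ^ 2)
      + (1 / ρ) * (∫ y, φ y * e y ^ 2) + 4 * ∫ y, (1 - φ y) ^ 2 * v y ^ 2 := by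
    rw [integral_add i5 (iv1.const_mul 4), integral_add i4 (iφ.const_mul (1 / ρ)),
      integral_add i3 (iz.const_mul (2 * ρ + 4)), integral_add i2 (iv.const_mul (2 * ρ)),
      integral_sub i1 (ivz.const_mul 2), integral_sub iU iv,
      integral_const_mul, integral_const_mul, integral_const_mul, integral_const_mul,
      integral_const_mul]
  rw [e1] at key
  have e2 : (2 / ρ) * (∫ y, φ y * e y ^ 2) = 2 * ((1 / ρ) * (∫ y, φ y * e y ^ 2)) := by ring
  rw [e2]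
  linarith

theorem exp_int {c : ℝ} (hc : 0 < c) : Integrable (fun y : ℝ => Real.exp (-(c * |y|))) := by
  set m := min 1 (c ^ 2 / 2) with hm
  have hm0 : 0 < m := lt_min one_pos (by positivity)
  have hint : Integrable (fun x : ℝ => m⁻¹ * (1 + x ^ 2)⁻¹) :=
    integrable_inv_one_add_sq.const_mul _
  refine hint.mono' (by fun_prop) (Filter.Eventually.of_forall fun y => ?_)
  rw [Real.norm_eq_abs, abs_of_pos (Real.exp_pos _), Real.exp_neg, ← mul_inv]
  apply inv_anti₀ (by positivity)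
  have h4 := Real.quadratic_le_exp_of_nonneg (show 0 ≤ c * |y| by positivity)
  have h5 : y ^ 2 = |y| ^ 2 := (sq_abs y).symm
  have h6 := abs_nonneg y
  have h7 : m * y ^ 2 ≤ c ^ 2 / 2 * y ^ 2 :=
    mul_le_mul_of_nonneg_right (min_le_right _ _) (sq_nonneg _)
  have h8 : m ≤ 1 := min_le_left _ _
  have h9 : (c * |y|) ^ 2 / 2 = c ^ 2 / 2 * y ^ 2 := by rw [mul_pow, sq_abs]; ring
  have h10 : 0 ≤ c * |y| := by positivity
  nlinarith

theorem exp_int34 : Integrable (fun y : ℝ => Real.exp (-(3 / 4) * |y|)) := by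
  have h := exp_int (c := 3 / 4) (by norm_num)
  have e : (fun y : ℝ => Real.exp (-(3 / 4) * |y|)) = fun y : ℝ => Real.exp (-(3 / 4 * |y|)) := by
    funext y; congr 1; ring
  rw [e]; exact h

/-- the final count -/
theorem count {E2 G2 Wt2 W12 VZ V2 Z2 P L ρ ε M0 A E1 C2 C : ℝ}
    (hρ : 0 < ρ) (hρ1 : ρ ≤ 1) (hE1 : 0 ≤ E1)
    (h : E2 ≤ 2 * ((W12 + G2) - Wt2) - 4 * VZ + 4 * ρ * V2 + (4 * ρ + 8) * Z2
      + (2 / ρ) * P + 8 * L)
    (hm : |W12 - Wt2| ≤ ε / 8) (hV : V2 ≤ M0)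
    (hVZ : |VZ| ≤ 4 * C * A * E1 * ρ) (hZ : Z2 ≤ 4 * A ^ 2 * E1 * ρ ^ 2) (hZ0 : 0 ≤ Z2)
    (hP : P ≤ ρ ^ 2) (hL : L ≤ C2 * ρ)
    (hs : (16 * C * A * E1 + 4 * M0 + 48 * A ^ 2 * E1 + 2 + 8 * C2) * ρ ≤ ε / 2)
    (hε : 0 < ε) : E2 ≤ 2 * G2 + ε := by
  have hm' := abs_le.1 hm
  have hVZ' := abs_le.1 hVZ
  have t1 : (2 / ρ) * P ≤ 2 * ρ := by
    calc (2 / ρ) * P ≤ (2 / ρ) * ρ ^ 2 := mul_le_mul_of_nonneg_left hP (by positivity)
      _ = 2 * ρ := by field_simp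
  have t2 : (4 * ρ + 8) * Z2 ≤ 48 * A ^ 2 * E1 * ρ := by
    have a1 : (4 * ρ + 8) * Z2 ≤ 12 * Z2 := by nlinarith
    have a2 : ρ ^ 2 ≤ ρ := by nlinarith
    have a3 : 4 * A ^ 2 * E1 * ρ ^ 2 ≤ 4 * A ^ 2 * E1 * ρ :=
      mul_le_mul_of_nonneg_left a2 (by positivity)
    linarith
  have t3 : 4 * ρ * V2 ≤ 4 * M0 * ρ := by nlinarith
  nlinarith

theorem massl_of (h1 : S_TIME) (h2 : S_CURVE) (h5 : S_TAUB) (h6 : S_CONTQ) : S_MASSL := by
  intro α N0 K T C C2 M n Z Y V2 W Wt r r' hα0 hα1 hK hT0 hρT hZ hY hV2 hB hBY ε hε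
  obtain ⟨hc, hmono, -⟩ := h2 α hα0 hα1
  obtain ⟨T', hT'0, hT'⟩ := hBY.mass (min (ε / 8) 1) (by positivity)
  obtain ⟨hE, CA, ρa, hρa0, hρa1, hτ⟩ := h5 α Z Y V2 hZ hY hV2
  -- constants
  obtain ⟨E1, hE1⟩ : ∃ E1 : ℝ, E1 = ∫ y : ℝ, Real.exp (-(3 / 4) * |y|) := ⟨_, rfl⟩
  have hE10 : 0 ≤ E1 := by
    rw [hE1]
    exact integral_nonneg fun _ => (Real.exp_pos _).le
  obtain ⟨M0, hM0⟩ : ∃ M0 : ℝ, M0 = |∫ x, W T' x ^ 2| + 1 := ⟨_, rfl⟩
  have hM00 : 0 ≤ M0 := by rw [hM0]; positivity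
  obtain ⟨D, hD⟩ : ∃ D : ℝ, D = 16 * |C| * |CA| * E1 + 4 * M0 + 48 * |CA| ^ 2 * E1 + 2 + 8 * |C2| :=
    ⟨_, rfl⟩
  have hD0 : 0 < D := by rw [hD]; positivity
  have hρT' := (hc T' hT'0).2.2.1
  refine ⟨min (min ρa (ε / (2 * D))) (rho α T' / 2), by positivity, ?_⟩
  intro u t1 t2 ht1 ht12 ht2T hρ2 hu g hg hg0 hgm a b t ht ha hb hh
  have ht0 : 0 < t := lt_of_lt_of_le ht1 ht.1
  have htT : t ≤ T := ht.2.trans ht2T
  obtain ⟨hσ, hl, hρ, -⟩ := hc t ht0
  have hρle : rho α t ≤ min (min ρa (ε / (2 * D))) (rho α T' / 2) :=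
    ((hmono t t2 ht0 ht.2).2.2).trans hρ2
  have hρa : rho α t ≤ ρa := hρle.trans ((min_le_left _ _).trans (min_le_left _ _))
  have hρε : rho α t ≤ ε / (2 * D) := hρle.trans ((min_le_left _ _).trans (min_le_right _ _))
  have hρ1 : rho α t ≤ 1 := hρa.trans hρa1
  have htT' : ∀ s, 0 < s → s ≤ t2 → s ≤ T' := by
    intro s hs hs2
    by_contra hcon
    push Not at hcon
    have h3 := (hmono T' s hT'0 hcon.le).2.2
    have h4 := (hmono s t2 hs hs2).2.2
    have h5' : rho α t2 ≤ rho α T' / 2 := hρ2.trans (min_le_right _ _)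
    linarith
  -- the functions
  have htI : t ∈ Ioc 0 T := ⟨ht0, htT⟩
  have hwt := hB.hinf t t ht0 le_rfl htT
  have htt : t ∈ Icc t t := ⟨le_rfl, le_rfl⟩
  have hWs := hwt.1.smooth t htt
  have hWm : ∀ k, MemLp (iteratedDeriv k (W t)) 2 := fun k => hwt.1.memLp k t htt
  have hus := hu.hinf.smooth t ht
  have hum : ∀ k, MemLp (iteratedDeriv k (u t)) 2 := fun k => hu.hinf.memLp k t ht
  have hWm0 : MemLp (W t) 2 := by simpa using hWm 0
  have hWm1 : MemLp (deriv (W t)) 2 := by simpa using hWm 1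
  have hum0 : MemLp (u t) 2 := by simpa using hum 0
  have hum1 : MemLp (deriv (u t)) 2 := by simpa using hum 1
  have inW := Pool.Agent.Helper9.KV.inner hl (sig α t) (hWs.of_le (by exact_mod_cast le_top)) hWm0
    hWm1 (I := inn α W t) (by rfl)
  have inU := Pool.Agent.Helper9.KV.inner hl (sig α t) (hus.of_le (by exact_mod_cast le_top)) hum0
    hum1 (I := inn α u t) (by rfl)
  obtain ⟨-, -, -, hcq⟩ := h6 α N0 K T C n Z Y V2 W Wt r r' hα0 hα1 hK hT0 hZ hY hV2 hB u t1 t2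
    ht1 ht12 ht2T hu (fun _ => a t) (fun _ => b t) continuousOn_const continuousOn_const
  obtain ⟨hes, hem⟩ := hcq t ht
  have heq : etaI α Z V2 u W (fun _ => a t) (fun _ => b t) t = etaI α Z V2 u W a b t := rfl
  rw [heq] at hes hem
  have hem0 : MemLp (etaI α Z V2 u W a b t) 2 := by simpa using hem 0
  have hem1 : MemLp (deriv (etaI α Z V2 u W a b t)) 2 := by simpa using hem 1
  -- the localised part
  obtain ⟨hτt, -⟩ := hτ (rho α t) hρ.le hρa
  have hτ0 := hτt 0 (by norm_num)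
  simp only [iteratedDeriv_zero] at hτ0
  let z : ℝ → ℝ := fun y => a t * tauA α Z (rho α t) y + b t * tauB α Z V2 (rho α t) y
  have hzb : ∀ y, |z y| ≤ 2 * rho α t * |CA| * Real.exp (-(3 / 4) * |y|) := by
    intro y
    have hx := Real.exp_pos (-(3 / 4) * |y|)
    have c1 : |tauA α Z (rho α t) y| ≤ |CA| * Real.exp (-(3 / 4) * |y|) :=
      ((hτ0 y).1).trans (mul_le_mul_of_nonneg_right (le_abs_self _) hx.le)
    have c2 : |tauB α Z V2 (rho α t) y| ≤ |CA| * Real.exp (-(3 / 4) * |y|) :=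
      ((hτ0 y).2.1).trans (mul_le_mul_of_nonneg_right (le_abs_self _) hx.le)
    calc |z y| ≤ |a t * tauA α Z (rho α t) y| + |b t * tauB α Z V2 (rho α t) y| := abs_add_le _ _
      _ = |a t| * |tauA α Z (rho α t) y| + |b t| * |tauB α Z V2 (rho α t) y| := by
          rw [abs_mul, abs_mul]
      _ ≤ rho α t * (|CA| * Real.exp (-(3 / 4) * |y|)) +
          rho α t * (|CA| * Real.exp (-(3 / 4) * |y|)) :=
          add_le_add (mul_le_mul ha c1 (abs_nonneg _) hρ.le)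
            (mul_le_mul hb c2 (abs_nonneg _) hρ.le)
      _ = _ := by ring
  have hzc : Continuous z :=
    (continuous_const.mul (hE (rho α t)).1.1.continuous).add
      (continuous_const.mul (hE (rho α t)).2.1.1.continuous)
  have hz2 : ∀ y, z y ^ 2 ≤ 4 * |CA| ^ 2 * rho α t ^ 2 * Real.exp (-(3 / 4) * |y|) := by
    intro y
    have hx := Real.exp_pos (-(3 / 4) * |y|)
    have hx1 : Real.exp (-(3 / 4) * |y|) ≤ 1 := by
      rw [Real.exp_le_one_iff]
      nlinarith [abs_nonneg y]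
    have c1 : |z y| ^ 2 ≤ (2 * rho α t * |CA| * Real.exp (-(3 / 4) * |y|)) ^ 2 :=
      pow_le_pow_left₀ (abs_nonneg _) (hzb y) 2
    rw [sq_abs] at c1
    have c2 : (2 * rho α t * |CA| * Real.exp (-(3 / 4) * |y|)) ^ 2 =
        4 * |CA| ^ 2 * rho α t ^ 2 * (Real.exp (-(3 / 4) * |y|) ^ 2) := by ring
    rw [c2] at c1
    refine c1.trans (mul_le_mul_of_nonneg_left ?_ (by positivity))
    nlinarith
  have hzI : Integrable (fun y => z y ^ 2) := by
    refine (exp_int34.const_mul (4 * |CA| ^ 2 * rho α t ^ 2)).mono'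
      (hzc.pow 2).aestronglyMeasurable (Eventually.of_forall fun y => ?_)
    rw [Real.norm_eq_abs, abs_of_nonneg (sq_nonneg _)]
    exact hz2 y
  have hzm : MemLp z 2 := (memLp_two_iff_integrable_sq hzc.aestronglyMeasurable).2 hzI
  have hZ2 : (∫ y, z y ^ 2) ≤ 4 * |CA| ^ 2 * E1 * rho α t ^ 2 := by
    calc (∫ y, z y ^ 2) ≤ ∫ y, 4 * |CA| ^ 2 * rho α t ^ 2 * Real.exp (-(3 / 4) * |y|) :=
          integral_mono hzI (exp_int34.const_mul _) hz2
      _ = 4 * |CA| ^ 2 * E1 * rho α t ^ 2 := by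
          rw [integral_const_mul, ← hE1]
          ring
  have hvb : ∀ y, |inn α W t y| ≤ 2 * |C| := by
    intro y
    have hx : Real.exp (-|y| / 2) ≤ 1 := by
      rw [Real.exp_le_one_iff]
      linarith [abs_nonneg y]
    have hr : rho α t ^ ((1 : ℝ) / 2) ≤ 1 := Real.rpow_le_one hρ.le hρ1 (by norm_num)
    have hr0 : 0 ≤ rho α t ^ ((1 : ℝ) / 2) := Real.rpow_nonneg hρ.le _
    have h0 : 0 ≤ Real.exp (-|y| / 2) + rho α t ^ ((1 : ℝ) / 2) := by positivity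
    calc |inn α W t y| ≤ C * (Real.exp (-|y| / 2) + rho α t ^ ((1 : ℝ) / 2)) := hB.b0 t htI y
      _ ≤ |C| * (Real.exp (-|y| / 2) + rho α t ^ ((1 : ℝ) / 2)) :=
          mul_le_mul_of_nonneg_right (le_abs_self _) h0
      _ ≤ |C| * 2 := mul_le_mul_of_nonneg_left (by linarith) (abs_nonneg _)
      _ = 2 * |C| := by ring
  have hVZ : |∫ y, inn α W t y * z y| ≤ 4 * |C| * |CA| * E1 * rho α t := by
    calc |∫ y, inn α W t y * z y| = ‖∫ y, inn α W t y * z y‖ := (Real.norm_eq_abs _).symm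
      _ ≤ ∫ y, 2 * |C| * (2 * rho α t * |CA|) * Real.exp (-(3 / 4) * |y|) := by
          refine norm_integral_le_of_norm_le (exp_int34.const_mul _)
            (Eventually.of_forall fun y => ?_)
          rw [Real.norm_eq_abs, abs_mul]
          calc |inn α W t y| * |z y| ≤
                (2 * |C|) * (2 * rho α t * |CA| * Real.exp (-(3 / 4) * |y|)) :=
                mul_le_mul (hvb y) (hzb y) (abs_nonneg _) (by positivity)
            _ = _ := by ring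
      _ = 4 * |C| * |CA| * E1 * rho α t := by
          rw [integral_const_mul, ← hE1]
          ring
  -- masses
  have ht1I : t1 ∈ Ioc 0 T := ⟨ht1, ht12.le.trans ht2T⟩
  have hW1 := hB.hinf t1 t1 ht1 le_rfl ht1I.2
  have hW1m : MemLp (W t1) 2 := by simpa using hW1.1.memLp 0 t1 ⟨le_rfl, le_rfl⟩
  have hmass1 : (∫ x, u t1 x ^ 2) = (∫ x, W t1 x ^ 2) + ∫ x, g x ^ 2 := by
    rw [← integral_add hW1m.integrable_sq hgm.integrable_sq]
    refine integral_congr_ae (Eventually.of_forall fun x => ?_)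
    have hz0 : W t1 x * g x = 0 := by
      by_cases hx : -1 ≤ x
      · rw [hg0 x hx, mul_zero]
      · rw [hB.supp t1 ht1I x (fun h => hx h.1), zero_mul]
    simp only
    rw [hg x]
    linear_combination 2 * hz0
  have hUU : (∫ y, (inn α W t y + z y + etaI α Z V2 u W a b t y) ^ 2) =
      (∫ x, W t1 x ^ 2) + ∫ x, g x ^ 2 := by
    rw [← hmass1, ← mass_eq h1 ht hu, ← inU.2.2.2.1]
    refine integral_congr_ae (Eventually.of_forall fun y => ?_)
    simp only [z, etaI]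
    ring
  have hst := static (v := inn α W t) (z := z) (e := etaI α Z V2 u W a b t)
    (φ := wt K (rho α t)) hρ inW.2.1 hzm hem0 (wt_cont hρ) (fun y => (wt_pos hρ y).le)
    (fun y => wt_le hρ y)
  rw [hUU] at hst
  have hvv : (∫ y, inn α W t y ^ 2) = ∫ x, W t x ^ 2 := inW.2.2.2.1
  have ht1' : t1 ∈ Ioc 0 T' := ⟨ht1, htT' t1 ht1 ht12.le⟩
  have ht' : t ∈ Ioc 0 T' := ⟨ht0, htT' t ht0 ht.2⟩
  have hm1 := hT' t1 ht1' t ht'
  have hm2 := hT' t ht' T' ⟨hT'0, le_rfl⟩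
  have hP : (∫ y, wt K (rho α t) y * etaI α Z V2 u W a b t y ^ 2) ≤ rho α t ^ 2 := by
    refine le_trans ?_ hh
    have i0 : Integrable (fun y => etaI α Z V2 u W a b t y ^ 2) := hem0.integrable_sq
    have i1 : Integrable (fun y => deriv (etaI α Z V2 u W a b t) y ^ 2) := hem1.integrable_sq
    have hb : ∀ f : ℝ → ℝ, Integrable f → Integrable (fun y => wt K (rho α t) y * f y) := by
      intro f hf
      refine hf.mono ((wt_cont hρ).aestronglyMeasurable.mul hf.aestronglyMeasurable)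
        (Eventually.of_forall fun y => ?_)
      rw [norm_mul, Real.norm_eq_abs, abs_of_pos (wt_pos hρ y)]
      exact mul_le_of_le_one_left (norm_nonneg _) (wt_le hρ y)
    refine integral_mono (hb _ i0) (hb _ (i1.add i0)) fun y => ?_
    have h9 := wt_pos (K := K) hρ y
    have h10 := sq_nonneg (deriv (etaI α Z V2 u W a b t) y)
    exact mul_le_mul_of_nonneg_left (by linarith) h9.le
  have hL : (∫ y, (1 - wt K (rho α t) y) ^ 2 * inn α W t y ^ 2) ≤ |C2| * rho α t := by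
    obtain ⟨j1, j2⟩ := hBY.lft t htI
    have hr : rho α t ^ ((3 : ℝ) / 2) ≤ rho α t := by
      calc rho α t ^ ((3 : ℝ) / 2) ≤ rho α t ^ (1 : ℝ) :=
            Real.rpow_le_rpow_of_exponent_ge hρ hρ1 (by norm_num)
        _ = rho α t := Real.rpow_one _
    have hr0 : 0 ≤ rho α t ^ ((3 : ℝ) / 2) := Real.rpow_nonneg hρ.le _
    calc (∫ y, (1 - wt K (rho α t) y) ^ 2 * inn α W t y ^ 2) ≤
          ∫ y, (1 - wt K (rho α t) y) ^ 2 * (inn α W t y ^ 2
            + deriv (inn α W t) y ^ 2 + iteratedDeriv 2 (inn α W t) y ^ 2) := by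
          refine integral_mono_of_nonneg (Eventually.of_forall fun y => by positivity) j1
            (Eventually.of_forall fun y => ?_)
          refine mul_le_mul_of_nonneg_left ?_ (sq_nonneg _)
          nlinarith [sq_nonneg (deriv (inn α W t) y), sq_nonneg (iteratedDeriv 2 (inn α W t) y)]
      _ ≤ C2 * rho α t ^ ((3 : ℝ) / 2) := j2
      _ ≤ |C2| * rho α t ^ ((3 : ℝ) / 2) := mul_le_mul_of_nonneg_right (le_abs_self _) hr0
      _ ≤ |C2| * rho α t := mul_le_mul_of_nonneg_left hr (abs_nonneg _)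
  have hDρ : D * rho α t ≤ ε / 2 := by
    have := mul_le_mul_of_nonneg_left hρε hD0.le
    have e9 : D * (ε / (2 * D)) = ε / 2 := by field_simp
    linarith
  rw [hD] at hDρ
  rw [hvv] at hst
  refine count (M0 := M0) (A := |CA|) (C := |C|) (C2 := |C2|) (E1 := E1) hρ hρ1 hE10 hst
    (hm1.trans (min_le_left _ _)) ?_ hVZ hZ2 (integral_nonneg fun y => sq_nonneg _) hP hL hDρ hε
  have h11 := abs_le.1 (hm2.trans (min_le_right _ _))
  rw [hM0]
  linarith [le_abs_self (∫ x, W T' x ^ 2)]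

theorem massl (h1 : S_TIME) (h2 : S_CURVE) (h3 : S_QF) (h4 : S_ECL1) (h5 : S_TAUB) : S_MASSL :=
  massl_of h1 h2 h5 (Pool.Agent.Helper16.KV.thm_CONTQ h3 h4 h2 h5)

end Pool.Agent.Helper65.KV
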